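import Mathlib
import Pool.Agent.Lib.MP_f786e3_al.VarHeight

set_option autoImplicit false

namespace Pool.Agent.Results.MP_f786e3_al.SubgroupsOfT

open Pool.Agent.Lib.MP_f786e3_al

/-- For a subgroup `H` of `T`, the pair `(S, H)` has relative property (T) exactly when `H` is
finite. -/
theorem result (H : Subgroup groupS) (hH : H ≤ thompsonT.subgroupOf groupS) :
    HasRelativePropertyT groupS H ↔ Finite H := by
  refine ⟨fun hT => ?_, fun _ => relT_of_finite H⟩
  have h := finite_of_relT groupS groupS_le_pp H hT
  rwa [inf_eq_left.2 hH] at h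

end Pool.Agent.Results.MP_f786e3_al.SubgroupsOfT
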